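import Pool.Agent.R497.TD.Defs
import Pool.Agent.Y957.MC.Fin

set_option autoImplicit false

/-! TD-CTRL (subtask 2745): averages of one function at the times `a P(n)`, with `a` first. -/

namespace Pool.Agent.R392.TD

open MeasureTheory Filter Finset
open Pool.Agent.R497.TD
open Pool.Agent.Y957.MC (IsFlow flowInv flow_poly flowInv_le)

universe u

theorem t_CTRL : S_CTRL.{u} := by
  intro X mX μ _ τ e P hτ he hb hP
  set E : X → ℝ := μ[e | flowInv τ] with hE
  have hEm : Measurable E := (stronglyMeasurable_condExp.mono (flowInv_le τ)).measurable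
  have hS : ∀ n : ℕ, Measurable fun q : ℝ × X => e (τ (q.1 * P.eval (n : ℝ)) q.2) := by
    intro n
    exact he.comp (hτ.meas.comp ((measurable_fst.mul_const _).prodMk measurable_snd))
  set d : ℕ → ℝ × X → ℝ := fun N q => (1 / (N : ℝ)) * ∑ n ∈ Icc 1 N, e (τ (q.1 * P.eval (n : ℝ)) q.2) - E q.2
    with hd
  have hdm : ∀ N, Measurable (d N) := by
    intro N
    exact (measurable_const.mul (Finset.measurable_sum _ fun n _ => hS n)).sub (hEm.comp measurable_snd)
  have hSm : MeasurableSet {q : ℝ × X | Tendsto (fun N => d N q) atTop (nhds 0)} :=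
    measurableSet_tendsto (nhds (0 : ℝ)) hdm
  have h1 : ∀ᵐ x ∂μ, ∀ᵐ a : ℝ, (a, x) ∈ {q : ℝ × X | Tendsto (fun N => d N q) atTop (nhds 0)} := by
    filter_upwards [flow_poly hτ he hb hP] with x hx
    filter_upwards [hx (fun _ => 1) (fun _ => by simp)] with a ha
    have h2 := (Complex.continuous_re.tendsto _).comp ha
    rw [Complex.zero_re] at h2
    refine h2.congr' ?_
    filter_upwards [eventually_ge_atTop 1] with N hN
    have hN0 : (N : ℝ) ≠ 0 := by
      have : 0 < N := hN
      positivity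
    have h3 : ((1 : ℂ) / (N : ℂ)) = (((1 : ℝ) / (N : ℝ) : ℝ) : ℂ) := by push_cast; rfl
    simp only [Function.comp_apply, one_mul]
    rw [h3, ← Complex.ofReal_sum, ← Complex.ofReal_mul, Complex.ofReal_re, Finset.sum_sub_distrib,
      Finset.sum_const, Nat.card_Icc, Nat.add_sub_cancel, nsmul_eq_mul, mul_sub]
    simp only [hd]
    rw [← mul_assoc, one_div, inv_mul_cancel₀ hN0, one_mul]
  have h2 : ∀ᵐ a : ℝ, ∀ᵐ x ∂μ, (a, x) ∈ {q : ℝ × X | Tendsto (fun N => d N q) atTop (nhds 0)} :=
    (Measure.ae_ae_comm hSm).2 h1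
  filter_upwards [h2] with a ha
  filter_upwards [ha] with x hx
  have h4 : Tendsto (fun N => d N (a, x) + E x) atTop (nhds (0 + E x)) :=
    (show Tendsto (fun N => d N (a, x)) atTop (nhds 0) from hx).add tendsto_const_nhds
  rw [zero_add] at h4
  refine h4.congr fun N => ?_
  simp only [hd, sub_add_cancel]

end Pool.Agent.R392.TD
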